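import Pool.Agent.K3h71.PP.Defs

/-! Pencils of plane curves: the primes of the coordinate ring of the generic curve. -/

set_option autoImplicit false
set_option linter.all false
set_option maxHeartbeats 400000

namespace Pool.Agent.K3h17.PP

open Polynomial Pool.Agent.K3h82.CP Pool.Agent.K3h71.PP

section
variable {M K : Type} [Field M] [Field K] [Algebra M K] {A B : M[X][X]} {ω : K} {n : ℕ}

/-- what is used of the pencil -/
structure PS (A B : M[X][X]) (ω : K) : Prop where
  tr : Transcendental M ω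
  ge : Gen M ω
  inj : Function.Injective (io A B ω)
  irrA : Irreducible A
  ndvd : ¬ A ∣ B
  B0 : B ≠ 0

theorem PS.beta_ne (h : PS A B ω) : io A B ω B ≠ 0 := fun h0 =>
  h.B0 (h.inj (by rw [h0, map_zero]))

theorem ps_of (h : Pn n A B ω) : PS A B ω where
  tr := h.tr
  ge := h.ge
  inj := io_inj h.tr h.ge h.hA.monic h.hA.deg h.hB.deg h.hB0
  irrA := h.irrA
  ndvd := h.hA.monic.not_dvd_of_natDegree_lt h.hB0 (by
    rw [h.hA.deg]
    exact h.hB.deg)
  B0 := h.hB0

/-- the generic member is a curve of degree `n` -/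
theorem isPl_FF (h : Pn n A B ω) : IsPl n (FF A B ω) := by
  have hinj : Function.Injective (mapRingHom (algebraMap M K)) :=
    Polynomial.map_injective _ (algebraMap M K).injective
  have hdA : (up2 K A).natDegree = n := by
    unfold up2
    rw [coe_mapRingHom, natDegree_map_eq_of_injective hinj, h.hA.deg]
  have hdB : (C (C ω) * up2 K B).natDegree < n := by
    refine lt_of_le_of_lt natDegree_mul_le ?_
    rw [natDegree_C, zero_add]
    unfold up2
    rw [coe_mapRingHom, natDegree_map_eq_of_injective hinj]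
    exact h.hB.deg
  have hmA : (up2 K A).Monic := by
    unfold up2
    rw [coe_mapRingHom]
    exact h.hA.monic.map _
  have hdeg : (C (C ω) * up2 K B).degree < (up2 K A).degree := by
    apply degree_lt_degree
    rw [hdA]
    exact hdB
  refine ⟨?_, ?_, ?_⟩
  · unfold FF
    exact hmA.add_of_left hdeg
  · unfold FF
    rw [natDegree_add_eq_left_of_natDegree_lt (by rw [hdA]; exact hdB), hdA]
  · intro j hj
    have e : (FF A B ω).coeff j = (A.coeff j).map (algebraMap M K) +
        C ω * (B.coeff j).map (algebraMap M K) := by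
      unfold FF up2
      rw [coeff_add, coeff_C_mul, coe_mapRingHom, coeff_map, coeff_map, coe_mapRingHom]
    rw [e] at hj ⊢
    have hA' : A.coeff j ≠ 0 → (A.coeff j).natDegree + j ≤ n := h.hA.tot j
    have hB' : B.coeff j ≠ 0 → (B.coeff j).natDegree + j ≤ n := h.hB.tot j
    by_cases hA0 : A.coeff j = 0
    · by_cases hB0 : B.coeff j = 0
      · rw [hA0, hB0] at hj
        simp at hj
      · have h1 := hB' hB0
        rw [hA0, Polynomial.map_zero, zero_add]
        refine (Nat.add_le_add_right (natDegree_C_mul_le _ _) j).trans ?_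
        rw [natDegree_map]
        exact h1
    · have h1 := hA' hA0
      have h2 : (C ω * (B.coeff j).map (algebraMap M K)).natDegree ≤ n - j := by
        refine (natDegree_C_mul_le _ _).trans ?_
        rw [natDegree_map]
        by_cases hB0 : B.coeff j = 0
        · rw [hB0, natDegree_zero]
          exact Nat.zero_le _
        · have := hB' hB0
          omega
      have h3 : ((A.coeff j).map (algebraMap M K)).natDegree ≤ n - j := by
        rw [natDegree_map]
        omega
      have h4 := natDegree_add_le_of_degree_le h3 h2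
      omega

/-- the parameter is transcendental over the coordinates of a point -/
theorem PS.tr_contra (h : PS A B ω) {E : Type} [CommRing E] [IsDomain E]
    (θ : AdjoinRoot (FF A B ω) →+* E) {f g : M[X][X]} (hf : Irreducible f) (hg : ¬ f ∣ g)
    (h1 : θ (io A B ω f) = 0) (h2 : θ (io A B ω g) = 0) {τ : M[X][X][X]}
    (hτ : θ (Th A B ω τ) = 0) (k : ℕ) : θ (io A B ω (τ.coeff k)) = 0 := by
  let _ : Algebra K E := (θ.comp (ka A B ω)).toAlgebra
  let _ : Algebra M E := ((algebraMap K E).comp (algebraMap M K)).toAlgebra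
  have _ : IsScalarTower M K E := IsScalarTower.of_algebraMap_eq' rfl
  let χ : M[X][X] →+* E := θ.comp (io A B ω)
  have hχ : ∀ a : M, χ (C (C a)) = algebraMap M E a := by
    intro a
    show θ (io A B ω (C (C a))) = θ (ka A B ω (algebraMap M K a))
    rw [ka_M]
  have hint : ∀ s, IsIntegral M (χ s) := alg_xy χ hχ hf hg h1 h2
  by_contra hk
  let χ' : M[X][X] →+* integralClosure M E := χ.codRestrict (integralClosure M E) fun s => hint s
  have hτ0 : τ.map χ' ≠ 0 := by
    intro h0
    have h3 := congrArg (fun p => ((p.coeff k : integralClosure M E) : E)) h0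
    simp only [coeff_map, coeff_zero] at h3
    exact hk h3
  have h4 : IsAlgebraic (integralClosure M E) (algebraMap K E ω) := by
    refine ⟨τ.map χ', hτ0, ?_⟩
    rw [aeval_def, eval₂_map]
    have e1 : (algebraMap (integralClosure M E) E).comp χ' = χ := by
      refine RingHom.ext fun s => rfl
    rw [e1]
    rw [← hτ]
    unfold Th
    rw [coe_eval₂RingHom, hom_eval₂]
    rfl
  have h5 : IsAlgebraic M (algebraMap K E ω) := h4.restrictScalars M
  exact h.tr ((isAlgebraic_algHom_iff (IsScalarTower.toAlgHom M K E)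
    (algebraMap K E).injective).1 h5)

theorem PS.comap_le (h : PS A B ω) {Q Q' : Ideal (AdjoinRoot (FF A B ω))} (hQ : Q.IsPrime)
    (hβ : io A B ω B ∈ Q) (hc : Q.comap (io A B ω) = Q'.comap (io A B ω)) : Q ≤ Q' := by
  intro z hz
  obtain ⟨q, σ, hq, hσ⟩ := exists_Th h.ge z
  have h1 : Th A B ω σ ∈ Q := by
    rw [← hσ]
    exact Q.mul_mem_left _ hz
  have h2 : ∀ k, io A B ω (σ.coeff k) ∈ Q' := by
    intro k
    have h3 := h.tr_contra (Ideal.Quotient.mk Q) h.irrA h.ndvd
      (Pen.io_A _ (Ideal.Quotient.eq_zero_iff_mem.2 hβ)) (Ideal.Quotient.eq_zero_iff_mem.2 hβ)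
      (Ideal.Quotient.eq_zero_iff_mem.2 h1) k
    have h5 : io A B ω (σ.coeff k) ∈ Q := Ideal.Quotient.eq_zero_iff_mem.1 h3
    have h4 : σ.coeff k ∈ Q.comap (io A B ω) := Ideal.mem_comap.2 h5
    rw [hc] at h4
    exact h4
  have h3 : Th A B ω σ ∈ Q' := by
    unfold Th
    rw [coe_eval₂RingHom, eval₂_eq_sum_range]
    exact Q'.sum_mem fun k _ => Q'.mul_mem_right _ (h2 k)
  rw [← hσ] at h3
  exact (Ideal.unit_mul_mem_iff_mem _ (unit_ka q hq)).1 h3

theorem PS.comap_surj (h : PS A B ω) {P : Ideal M[X][X]} (hP : P.IsPrime) (hPA : A ∈ P)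
    (hPB : B ∈ P) : ∃ Q : Ideal (AdjoinRoot (FF A B ω)), Q.IsPrime ∧ io A B ω B ∈ Q ∧
      Q.comap (io A B ω) = P := by
  let L := P.ResidueField
  let E := RatFunc L
  let ψ : M[X][X] →+* L := algebraMap M[X][X] P.ResidueField
  have hψ : ∀ s, ψ s = 0 ↔ s ∈ P := fun s => Ideal.algebraMap_residueField_eq_zero
  let c : M →+* E := (algebraMap L E).comp (ψ.comp (C.comp C))
  have hi : Function.Injective (eval₂RingHom c (RatFunc.X : E)) := by
    have e : eval₂RingHom c (RatFunc.X : E) =
        (algebraMap L[X] (RatFunc L)).comp (mapRingHom (ψ.comp (C.comp C))) := by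
      apply Polynomial.ringHom_ext
      · intro a
        rw [coe_eval₂RingHom, eval₂_C]
        show algebraMap L (RatFunc L) (ψ (C (C a))) =
          algebraMap L[X] (RatFunc L) (mapRingHom (ψ.comp (C.comp C)) (C a))
        rw [coe_mapRingHom, Polynomial.map_C, RatFunc.algebraMap_C]
        rfl
      · rw [coe_eval₂RingHom, eval₂_X, RingHom.comp_apply, coe_mapRingHom, Polynomial.map_X,
          RatFunc.algebraMap_X]
    rw [e, RingHom.coe_comp]
    exact (IsFractionRing.injective L[X] (RatFunc L)).comp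
      (Polynomial.map_injective _ (ψ.comp (C.comp C)).injective)
  obtain ⟨l, hl, hlω⟩ := exists_lift h.tr h.ge c RatFunc.X hi
  let x : E := algebraMap L E (ψ (C X))
  let y : E := algebraMap L E (ψ X)
  have h1 : ∀ s : M[X][X], eval₂ (eval₂RingHom l x) y (up2 K s) = algebraMap L E (ψ s) := by
    intro s
    unfold up2
    rw [coe_mapRingHom, eval₂_map]
    have e : eval₂RingHom ((eval₂RingHom l x).comp (mapRingHom (algebraMap M K))) y =
        (algebraMap L E).comp ψ := by
      apply Polynomial.ringHom_ext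
      · intro p
        rw [coe_eval₂RingHom, eval₂_C, RingHom.comp_apply, coe_eval₂RingHom, coe_mapRingHom, eval₂_map]
        have e' : eval₂RingHom (l.comp (algebraMap M K)) x =
            ((algebraMap L E).comp ψ).comp C := by
          apply Polynomial.ringHom_ext
          · intro a
            rw [coe_eval₂RingHom, eval₂_C, RingHom.comp_apply, hl]
            rfl
          · rw [coe_eval₂RingHom, eval₂_X]
            rfl
        exact congrArg (fun f => f p) e'
      · rw [coe_eval₂RingHom, eval₂_X]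
        rfl
    exact congrArg (fun f => f s) e
  have h2 : eval₂ (eval₂RingHom l x) y (FF A B ω) = 0 := by
    unfold FF
    rw [eval₂_add, eval₂_mul, h1, h1, (hψ A).2 hPA, (hψ B).2 hPB, map_zero, mul_zero, add_zero]
  let θ : AdjoinRoot (FF A B ω) →+* E := AdjoinRoot.lift (eval₂RingHom l x) y h2
  have h3 : ∀ s, θ (io A B ω s) = algebraMap L E (ψ s) := by
    intro s
    show AdjoinRoot.lift (eval₂RingHom l x) y h2 (io A B ω s) = _
    unfold io
    rw [RingHom.comp_apply, AdjoinRoot.lift_mk, h1]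
  refine ⟨RingHom.ker θ, RingHom.ker_isPrime θ, ?_, ?_⟩
  · rw [RingHom.mem_ker, h3, (hψ B).2 hPB, map_zero]
  · ext s
    rw [Ideal.mem_comap, RingHom.mem_ker, h3, map_eq_zero, hψ]

/-- the primes over the base points -/
noncomputable def PS.eqv (h : PS A B ω) :
    {Q : Ideal (AdjoinRoot (FF A B ω)) // Q.IsPrime ∧ io A B ω B ∈ Q} ≃ BPt A B :=
  Equiv.ofBijective (fun Q => ⟨Q.1.comap (io A B ω),
    have := Q.2.1
    ⟨Ideal.IsPrime.comap _, Ideal.mem_comap.2 (Ideal.Quotient.eq_zero_iff_mem.1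
      (Pen.io_A (Ideal.Quotient.mk Q.1) (Ideal.Quotient.eq_zero_iff_mem.2 Q.2.2))), Q.2.2⟩⟩) (by
    constructor
    · intro Q Q' hQ
      have h1 : Q.1.comap (io A B ω) = Q'.1.comap (io A B ω) := congrArg (fun z => z.1) hQ
      exact Subtype.ext (le_antisymm (h.comap_le Q.2.1 Q.2.2 h1) (h.comap_le Q'.2.1 Q'.2.2 h1.symm))
    · rintro ⟨P, hP, hPA, hPB⟩
      obtain ⟨Q, h1, h2, h3⟩ := h.comap_surj hP hPA hPB
      exact ⟨⟨Q, h1, h2⟩, Subtype.ext h3⟩)

/-- **The other primes.** -/
theorem PS.gen (h : PS A B ω) [IsDedekindDomain (AdjoinRoot (FF A B ω))]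
    (Q : Ideal (AdjoinRoot (FF A B ω))) (hQ : Q.IsPrime) (hQ0 : Q ≠ 0) (hβ : io A B ω B ∉ Q) :
    ∃ (x : AdjoinRoot (FF A B ω)) (I : Ideal (AdjoinRoot (FF A B ω))) (k : ℕ), x ≠ 0 ∧
      Ideal.span {x} = Q * I ∧ I ∣ Ideal.span {io A B ω B} ^ k := by
  have hβ0 := h.beta_ne
  -- the trace on the polynomials
  have h1 : Q.comap (io A B ω) ≠ ⊥ := by
    obtain ⟨z, hz, hz0⟩ := Submodule.exists_mem_ne_zero_of_ne_bot hQ0
    obtain ⟨q, N, s, hq, hs⟩ := exists_io h.ge z
    intro h2
    have h3 : s ∈ Q.comap (io A B ω) := by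
      rw [Ideal.mem_comap, ← hs]
      exact Q.mul_mem_left _ hz
    rw [h2, Ideal.mem_bot] at h3
    rw [h3, map_zero] at hs
    exact mul_ne_zero (mul_ne_zero (unit_ka q hq).ne_zero (pow_ne_zero _ hβ0)) hz0 hs
  have hQp : (Q.comap (io A B ω)).IsPrime := Ideal.IsPrime.comap _
  obtain ⟨w, hw, hwp⟩ := hQp.exists_mem_prime_of_ne_bot h1
  have h2 : ∀ s ∈ Q.comap (io A B ω), w ∣ s := by
    intro s hs
    by_contra hws
    apply hβ
    have h3 : Th A B ω (C B * X + C A) = 0 := by
      unfold Th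
      rw [coe_eval₂RingHom, eval₂_add, eval₂_mul, eval₂_C, eval₂_C, eval₂_X]
      have := rel_io A B ω
      rw [map_neg] at this
      linear_combination this
    have h4 := h.tr_contra (Ideal.Quotient.mk Q) hwp.irreducible hws
      (Ideal.Quotient.eq_zero_iff_mem.2 hw) (Ideal.Quotient.eq_zero_iff_mem.2 hs)
      (τ := C B * X + C A) (by rw [h3, map_zero]) 1
    rw [coeff_add, coeff_C_mul, coeff_X_one, mul_one, coeff_C_succ, add_zero] at h4
    exact Ideal.Quotient.eq_zero_iff_mem.1 h4
  set x := io A B ω w with hx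
  have hx0 : x ≠ 0 := fun h0 => hwp.ne_zero (h.inj (by rw [← hx, h0, map_zero]))
  have h3 : ∀ a ∈ Q, ∃ k, io A B ω B ^ k * a ∈ Ideal.span {x} := by
    intro a ha
    obtain ⟨q, N, s, hq, hs⟩ := exists_io h.ge a
    have h4 : s ∈ Q.comap (io A B ω) := by
      rw [Ideal.mem_comap, ← hs]
      exact Q.mul_mem_left _ ha
    obtain ⟨t, rfl⟩ := h2 s h4
    refine ⟨N, ?_⟩
    rw [← Ideal.unit_mul_mem_iff_mem _ (unit_ka (A := A) (B := B) q hq), ← mul_assoc, hs, map_mul]
    exact Ideal.mul_mem_right _ _ (Ideal.mem_span_singleton_self _)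
  obtain ⟨k, hk⟩ : ∃ k, Ideal.span {io A B ω B} ^ k * Q ≤ Ideal.span {x} := by
    obtain ⟨G, hG⟩ := (isNoetherianRing_iff_ideal_fg _).1 inferInstance Q
    have hGQ : ∀ g ∈ G, g ∈ Q := fun g hg => by
      rw [← hG]
      exact Ideal.subset_span hg
    choose! k hk using h3
    refine ⟨G.sup k, ?_⟩
    rw [Ideal.span_singleton_pow, Ideal.span_singleton_mul_le_iff]
    intro z hz
    rw [← hG] at hz
    induction hz using Submodule.span_induction with
    | mem g hg =>
      obtain ⟨r, hr⟩ := Nat.exists_eq_add_of_le (Finset.le_sup (f := k) hg)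
      rw [hr, pow_add]
      have := hk g (hGQ g hg)
      have e : io A B ω B ^ k g * io A B ω B ^ r * g =
          io A B ω B ^ r * (io A B ω B ^ k g * g) := by ring
      rw [e]
      exact Ideal.mul_mem_left _ _ this
    | zero => rw [mul_zero]; exact zero_mem _
    | add a b _ _ h1 h2 => rw [mul_add]; exact add_mem h1 h2
    | smul c a _ h1 =>
      rw [smul_eq_mul, mul_left_comm]
      exact Ideal.mul_mem_left _ _ h1
  have h4 : Q ∣ Ideal.span {x} := by
    rw [Ideal.dvd_iff_le, Ideal.span_singleton_le_iff_mem]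
    exact hw
  obtain ⟨I, hI⟩ := h4
  refine ⟨x, I, k, hx0, hI, ?_⟩
  rw [← Ideal.dvd_iff_le] at hk
  obtain ⟨J, hJ⟩ := hk
  refine ⟨J, ?_⟩
  apply mul_left_cancel₀ hQ0
  rw [mul_comm Q, hJ, hI, mul_assoc]

end

end Pool.Agent.K3h17.PP
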