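import Pool.Agent.K3h17.PP.P1

/-! Pencils of plane curves: the members and their factors. -/

set_option autoImplicit false
set_option linter.all false
set_option maxHeartbeats 400000

namespace Pool.Agent.K3h17.PP

open Polynomial Pool.Agent.K3h82.CP Pool.Agent.K3h71.PP

section
variable {M : Type} [Field M] {A B : M[X][X]} {n : ℕ}

/-- the hypotheses on the pencil over `M` -/
structure PM (n : ℕ) (A B : M[X][X]) : Prop where
  monic : A.Monic
  deg : A.natDegree = n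
  hn : 0 < n
  hBn : B.natDegree < n
  B0 : B ≠ 0
  irrA : Irreducible A

theorem PM.ndvd (h : PM n A B) : ¬ A ∣ B :=
  h.monic.not_dvd_of_natDegree_lt h.B0 (by
    rw [h.deg]
    exact h.hBn)

theorem PM.mem_ne (h : PM n A B) {g : M[X]} (hg : g ≠ 0) : mem A B g ≠ 0 :=
  (hm_deg h.monic h.deg h.hBn hg).1

theorem PM.mem_deg (h : PM n A B) {g : M[X]} (hg : g ≠ 0) :
    (mem A B g).natDegree = n * g.natDegree :=
  (hm_deg h.monic h.deg h.hBn hg).2

theorem PM.mem_mul (h : PM n A B) {g g' : M[X]} (hg : g ≠ 0) (hg' : g' ≠ 0) :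
    mem A B (g * g') = mem A B g * mem A B g' := by
  unfold mem
  rw [natDegree_mul hg hg', sg_mul, hm_mul h.B0 (sg_deg g).le (sg_deg g').le]

theorem PM.mem_dvd (h : PM n A B) {g g' : M[X]} (hg' : g' ≠ 0) (hd : g ∣ g') :
    mem A B g ∣ mem A B g' := by
  obtain ⟨k, rfl⟩ := hd
  rw [h.mem_mul (left_ne_zero_of_mul hg') (right_ne_zero_of_mul hg')]
  exact dvd_mul_right _ _

theorem hm_eq {g : M[X]} {N : ℕ} (hN : g.natDegree ≤ N) :
    hm (-A) B N (sg g) = B ^ (N - g.natDegree) * mem A B g := by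
  obtain ⟨r, rfl⟩ := Nat.exists_eq_add_of_le hN
  rw [hm_add (sg_deg g).le, Nat.add_sub_cancel_left]
  rfl

theorem mem_unit {g : M[X]} (hg : IsUnit g) : IsUnit (mem A B g) := by
  obtain ⟨c, hc, rfl⟩ := Polynomial.isUnit_iff.1 hg
  unfold mem
  rw [natDegree_C, hm_zero]
  exact isUnit_C.2 (isUnit_C.2 hc)

/-- no irreducible divides `B` and a member -/
theorem PM.not_both (h : PM n A B) {p : M[X][X]} (hp : Irreducible p) {g : M[X]} (hg : g ≠ 0)
    (h1 : p ∣ mem A B g) : ¬ p ∣ B := by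
  intro h2
  have h3 : ¬ p ∣ A := by
    intro h4
    exact h.ndvd ((hp.associated_of_dvd h.irrA h4).symm.dvd.trans h2)
  have h5 := hm_dvd hp h2 h3 h1
  exact hg (leadingCoeff_eq_zero.1 h5)

theorem hm_sum (a b : M[X][X]) (N : ℕ) (g g' : M[X]) :
    hm a b N (sg (g + g')) = hm a b N (sg g) + hm a b N (sg g') := by
  unfold hm
  rw [← Finset.sum_add_distrib]
  refine Finset.sum_congr rfl fun k _ => ?_
  rw [sg_coeff, sg_coeff, sg_coeff, coeff_add, C_add, C_add]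
  ring

theorem hm_sg_one (N : ℕ) : hm (-A) B N (sg (1 : M[X])) = B ^ N := by
  have h1 : (1 : M[X]).natDegree ≤ N := by
    rw [natDegree_one]
    exact Nat.zero_le _
  rw [hm_eq h1, natDegree_one, Nat.sub_zero]
  unfold mem
  rw [natDegree_one]
  have h2 := hm_zero (-A) B (1 : M)
  rw [C_1] at h2
  rw [h2, C_1, mul_one]

theorem PM.not_dvd_hm (h : PM n A B) {p : M[X][X]} (hp : Irreducible p) {g g' : M[X]} (hg : g ≠ 0)
    (hc : IsCoprime g g') (h1 : p ∣ mem A B g) {N : ℕ} (hN : g'.natDegree ≤ N)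
    (h2 : p ∣ hm (-A) B N (sg g')) : False := by
  obtain ⟨u, v, huv⟩ := hc
  apply h.not_both hp hg h1
  have key : ∀ N', N ≤ N' → p ∣ hm (-A) B N' (sg g') := by
    intro N' hN'
    obtain ⟨r, rfl⟩ := Nat.exists_eq_add_of_le hN'
    rw [hm_add (by rw [sg_deg]; exact hN)]
    exact h2.mul_left _
  set N' := max (u * g).natDegree (v.natDegree + N) with hN'
  have h3 : hm (-A) B N' (sg (u * g)) + hm (-A) B N' (sg (v * g')) = B ^ N' := by
    rw [← hm_sum, huv, hm_sg_one]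
  have h4 : p ∣ hm (-A) B N' (sg (u * g)) := by
    by_cases hu : u = 0
    · rw [hu, zero_mul]
      unfold hm sg
      rw [Polynomial.map_zero]
      simp
    · rw [hm_eq (le_max_left _ _), h.mem_mul hu hg]
      exact ((h1.mul_left _).mul_left _)
  have h5 : p ∣ hm (-A) B N' (sg (v * g')) := by
    obtain ⟨r, hr⟩ := Nat.exists_eq_add_of_le (le_max_right (u * g).natDegree (v.natDegree + N))
    rw [← hN'] at hr
    rw [hr, hm_add, sg_mul, hm_mul h.B0 (sg_deg v).le (by rw [sg_deg]; exact hN)]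
    · exact (h2.mul_left _).mul_left _
    · rw [sg_deg]
      exact natDegree_mul_le.trans (Nat.add_le_add_left hN _)
  have h6 : p ∣ B ^ N' := by
    rw [← h3]
    exact dvd_add h4 h5
  exact hp.prime.dvd_of_dvd_pow h6

theorem PM.coprime (h : PM n A B) {p : M[X][X]} (hp : Irreducible p) {g g' : M[X]} (hg : g ≠ 0)
    (hc : IsCoprime g g') (h1 : p ∣ mem A B g) (h2 : p ∣ mem A B g') : False :=
  h.not_dvd_hm hp hg hc h1 le_rfl h2

theorem PM.exists_factor (h : PM n A B) {p : M[X][X]} (hp : Irreducible p) (g : M[X]) :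
    g ≠ 0 → p ∣ mem A B g → ∃ Ψ : M[X], Irreducible Ψ ∧ Ψ ∣ g ∧ p ∣ mem A B Ψ := by
  induction g using WfDvdMonoid.induction_on_irreducible with
  | zero => intro h0; exact (h0 rfl).elim
  | unit u hu =>
    intro _ h1
    exact (hp.not_isUnit (isUnit_of_dvd_unit h1 (mem_unit hu))).elim
  | mul a i ha hi ih =>
    intro _ h1
    rw [h.mem_mul hi.ne_zero ha] at h1
    rcases hp.prime.dvd_or_dvd h1 with h2 | h2
    · exact ⟨i, hi, dvd_mul_right _ _, h2⟩
    · obtain ⟨Ψ, h3, h4, h5⟩ := ih ha h2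
      exact ⟨Ψ, h3, h4.mul_left _, h5⟩

theorem fac_out (B : M[X][X]) : Fac B (fun j : Cm B => Quot.out j.1) where
  irr j := by
    rw [← Associates.irreducible_mk, Associates.quot_out]
    exact j.2.1
  dvd j := by
    rw [← Associates.mk_dvd_mk, Associates.quot_out]
    exact j.2.2
  inj i j hij := by
    apply Subtype.ext
    have h1 := Associates.mk_eq_mk_iff_associated.2 hij
    rwa [Associates.quot_out, Associates.quot_out] at h1
  all p hp hpB := ⟨⟨Associates.mk p, Associates.irreducible_mk.2 hp, Associates.mk_dvd_mk.2 hpB⟩,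
    Associates.mk_eq_mk_iff_associated.1 (Associates.quot_out _).symm⟩

theorem cm_finite {B : M[X][X]} (hB : B ≠ 0) : Finite (Cm B) := by
  classical
  let _ : StrongNormalizationMonoid M[X][X] := UniqueFactorizationMonoid.normalizationMonoid
  refine Finite.of_injective (fun j : Cm B => (⟨normalize (Quot.out j.1), by
    rw [Multiset.mem_toFinset]
    have h1 := UniqueFactorizationMonoid.exists_mem_normalizedFactors_of_dvd hB
      ((fac_out B).irr j) ((fac_out B).dvd j)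
    obtain ⟨q, hq, hq'⟩ := h1
    have h2 := UniqueFactorizationMonoid.normalize_normalized_factor q hq
    rw [← h2] at hq
    rwa [normalize_eq_normalize_iff_associated.2 hq']⟩ :
      {x // x ∈ (UniqueFactorizationMonoid.normalizedFactors B).toFinset})) ?_
  intro i j hij
  have h1 := congrArg (fun z => z.1) hij
  exact (fac_out B).inj i j (normalize_eq_normalize_iff_associated.1 h1)

theorem exists_phi {P : M[X]} (hP : P ≠ 0) (t : Cm (C P : M[X][X])) :
    ∃ Ψ : M[X], Irreducible Ψ ∧ Ψ ∣ P ∧ Associates.mk (C Ψ) = t.1 := by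
  have h1 : Irreducible (Quot.out t.1) := (fac_out (C P)).irr t
  have h2 : Quot.out t.1 ∣ C P := (fac_out (C P)).dvd t
  have h3 : (Quot.out t.1).natDegree = 0 := by
    have h4 := natDegree_le_of_dvd h2 (C_ne_zero.2 hP)
    rw [natDegree_C] at h4
    omega
  have h4 := eq_C_of_natDegree_eq_zero h3
  rw [h4] at h1 h2
  refine ⟨(Quot.out t.1).coeff 0, (Polynomial.prime_C_iff.1 h1.prime).irreducible, ?_, ?_⟩
  · have h5 := (C_dvd_iff_dvd_coeff _ _).1 h2 0
    rwa [coeff_C_zero] at h5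
  · rw [← h4]
    exact Associates.quot_out t.1

end

section
variable {M : Type} [Field M] {C' : M[X][X]} {κ : Type} [Fintype κ] {π : κ → M[X][X]}

theorem fac_ex (F : Fac C' π) {r : M[X][X]} (hr : Irreducible r) {e : κ → ℕ}
    (h : r ∣ ∏ k, π k ^ e k) : ∃ k, e k ≠ 0 ∧ Associated r (π k) := by
  obtain ⟨k, -, hk⟩ := hr.prime.exists_mem_finset_dvd h
  refine ⟨k, ?_, ?_⟩
  · intro h0
    rw [h0, pow_zero] at hk
    exact hr.not_isUnit (isUnit_of_dvd_one hk)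
  · exact hr.associated_of_dvd (F.irr k) (hr.prime.dvd_of_dvd_pow hk)

theorem fac_nd (F : Fac C' π) {j : κ} {e : κ → ℕ} (hj : e j = 0) : ¬ π j ∣ ∏ k, π k ^ e k := by
  intro h
  obtain ⟨k, hk, hk'⟩ := fac_ex F (F.irr j) h
  rw [F.inj j k hk'] at hj
  exact hk hj

theorem fac_dv {j : κ} {e : κ → ℕ} (hj : e j ≠ 0) : π j ∣ ∏ k, π k ^ e k :=
  (dvd_pow_self _ hj).trans (Finset.dvd_prod_of_mem (fun k => π k ^ e k) (Finset.mem_univ j))

end

section
variable {M : Type} [Field M] {A B : M[X][X]} {n : ℕ} {P : M[X]}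
  {κ τ : Type} [Fintype κ] {π : κ → M[X][X]} {Φ : τ → M[X]} {j0 : τ → κ}

/-- the factors of `B` and of the member at `P` -/
structure Dt (n : ℕ) (A B : M[X][X]) (P : M[X]) (π : κ → M[X][X]) (Φ : τ → M[X]) (j0 : τ → κ) :
    Prop where
  pm : PM n A B
  P0 : P ≠ 0
  hmem : ∀ Ψ : M[X], Irreducible Ψ → ¬ Ψ ∣ P → Irreducible (mem A B Ψ)
  F : Fac (B * mem A B P) π
  phi : ∀ t, Irreducible (Φ t)
  phid : ∀ t, Φ t ∣ P
  ass : ∀ t t', Associated (Φ t) (Φ t') → t = t'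
  all : ∀ Ψ, Irreducible Ψ → Ψ ∣ P → ∃ t, Associated Ψ (Φ t)
  j0d : ∀ t, π (j0 t) ∣ mem A B (Φ t)

theorem Dt.ne (d : Dt n A B P π Φ j0) : B * mem A B P ≠ 0 :=
  mul_ne_zero d.pm.B0 (d.pm.mem_ne d.P0)

theorem Dt.ind (d : Dt n A B P π Φ j0) {e f : κ → ℕ} (hz : ∀ t, f (j0 t) = 0) {p q : M[X]}
    (hp : p ≠ 0) (hpq : IsCoprime p q) {N : ℕ} (hpN : p.natDegree ≤ N) (hqN : q.natDegree ≤ N)
    (heq : (∏ j, π j ^ e j) * hm (-A) B N (sg p) = (∏ j, π j ^ f j) * hm (-A) B N (sg q)) :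
    IsUnit p := by
  by_contra hu
  obtain ⟨Ψ, hΨ, hΨp⟩ := WfDvdMonoid.exists_irreducible_factor hu hp
  obtain ⟨θ, hθ, hθ1, hθ2⟩ : ∃ θ : M[X][X], Irreducible θ ∧ θ ∣ mem A B Ψ ∧
      ∀ k, f k ≠ 0 → ¬ Associated θ (π k) := by
    by_cases hP : Ψ ∣ P
    · obtain ⟨t, ht⟩ := d.all Ψ hΨ hP
      refine ⟨π (j0 t), d.F.irr _, (d.j0d t).trans (d.pm.mem_dvd hΨ.ne_zero ht.symm.dvd), ?_⟩
      intro k hk hk'
      rw [← d.F.inj _ _ hk'] at hk
      exact hk (hz t)
    · refine ⟨mem A B Ψ, d.hmem Ψ hΨ hP, dvd_rfl, ?_⟩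
      intro k hk hk'
      have h1 : mem A B Ψ ∣ B * mem A B P := hk'.dvd.trans (d.F.dvd k)
      rcases (d.hmem Ψ hΨ hP).prime.dvd_or_dvd h1 with h2 | h2
      · exact d.pm.not_both (d.hmem Ψ hΨ hP) hΨ.ne_zero dvd_rfl h2
      · exact d.pm.coprime (d.hmem Ψ hΨ hP) hΨ.ne_zero (hΨ.coprime_iff_not_dvd.2 hP) dvd_rfl h2
  have h1 : θ ∣ (∏ j, π j ^ f j) * hm (-A) B N (sg q) := by
    rw [← heq, hm_eq hpN]
    exact ((hθ1.trans (d.pm.mem_dvd hp hΨp)).mul_left _).mul_left _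
  rcases hθ.prime.dvd_or_dvd h1 with h2 | h2
  · obtain ⟨k, hk, hk'⟩ := fac_ex d.F hθ h2
    exact hθ2 k hk hk'
  · exact d.pm.not_dvd_hm hθ hΨ.ne_zero (hpq.of_isCoprime_of_dvd_left hΨp) hθ1 hqN h2

theorem Dt.red (d : Dt n A B P π Φ j0) (t : τ) : ∃ a : κ → ℕ,
    Associated (mem A B (Φ t)) (∏ j, π j ^ a j) ∧ a (j0 t) ≠ 0 ∧
      ∀ t', t' ≠ t → a (j0 t') = 0 := by
  obtain ⟨a, ha⟩ := d.F.rep d.ne (mem A B (Φ t)) (N := 1) (by
    rw [pow_one]
    exact (d.pm.mem_dvd d.P0 (d.phid t)).mul_left _)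
  refine ⟨a, ha, ?_, ?_⟩
  · intro h0
    exact fac_nd d.F h0 ((d.j0d t).trans ha.dvd)
  · intro t' ht'
    by_contra h0
    have h1 : π (j0 t') ∣ mem A B (Φ t) := (fac_dv h0).trans ha.symm.dvd
    refine d.pm.coprime (d.F.irr _) (d.phi t').ne_zero ?_ (d.j0d t') h1
    rw [(d.phi t').coprime_iff_not_dvd]
    intro h2
    exact ht' (d.ass _ _ ((d.phi t').associated_of_dvd (d.phi t) h2))

theorem Dt.mu (d : Dt n A B P π Φ j0) : ∃ μ : κ → ℕ, Associated B (∏ j, π j ^ μ j) ∧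
    ∀ t, μ (j0 t) = 0 := by
  obtain ⟨μ, hμ⟩ := d.F.rep d.ne B (N := 1) (by
    rw [pow_one]
    exact dvd_mul_right _ _)
  refine ⟨μ, hμ, ?_⟩
  intro t
  by_contra h0
  exact d.pm.not_both (d.F.irr _) (d.phi t).ne_zero (d.j0d t) ((fac_dv h0).trans hμ.symm.dvd)

theorem Dt.j0inj (d : Dt n A B P π Φ j0) : Function.Injective j0 := by
  intro t t' h
  by_contra hne
  obtain ⟨a, -, h1, h2⟩ := d.red t
  apply h1
  rw [h]
  exact h2 t' (Ne.symm hne)

end

end Pool.Agent.K3h17.PP
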