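import Pool.Agent.K3h17.PP.P2

/-! Pencils of plane curves: the rank of the class group. -/

set_option autoImplicit false
set_option linter.all false
set_option maxHeartbeats 400000

namespace Pool.Agent.K3h17.PP

open Polynomial Pool.Agent.K3h82.CP Pool.Agent.K3h71.PP

section
variable {M K : Type} [Field M] [Field K] [Algebra M K] {A B : M[X][X]} {ω : K} {n : ℕ} {P : M[X]}
  {κ τ : Type} [Fintype κ] {π : κ → M[X][X]} {Φ : τ → M[X]} {j0 : τ → κ}

theorem prod_io (e : κ → ℕ) :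
    ∏ j, io A B ω (π j) ^ e j = io A B ω (∏ j, π j ^ e j) := by
  rw [map_prod]
  exact Finset.prod_congr rfl fun j _ => (map_pow _ _ _).symm

theorem PS.aeval_ne (h : PS A B ω) {g : M[X]} (hg : g ≠ 0) : aeval ω g ≠ 0 := fun h0 =>
  hg (transcendental_iff_injective.1 h.tr (by rw [h0, map_zero]))

theorem PS.io_mem (h : PS A B ω) {g : M[X]} (hg : g ≠ 0) :
    Associated (io A B ω (mem A B g)) (io A B ω B ^ g.natDegree) := by
  unfold mem
  rw [io_hm le_rfl]
  exact associated_mul_unit_left _ _ (unit_ka g (h.aeval_ne hg))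

theorem io_pow_rep {s : M[X][X]} {μ : κ → ℕ} (hμ : Associated s (∏ j, π j ^ μ j)) (k : ℕ) :
    Associated (io A B ω s ^ k) (∏ j, io A B ω (π j) ^ (k * μ j)) := by
  have h2 : Associated (io A B ω s) (∏ j, io A B ω (π j) ^ μ j) := by
    rw [prod_io]
    exact hμ.map (io A B ω)
  have h4 := h2.pow_pow (n := k)
  rw [← Finset.prod_pow] at h4
  refine h4.trans (Associated.of_eq ?_)
  exact Finset.prod_congr rfl fun j _ => by rw [← pow_mul, mul_comm]

theorem Dt.rep (d : Dt n A B P π Φ j0) (h : PS A B ω) {μ : κ → ℕ}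
    (hμ : Associated B (∏ j, π j ^ μ j)) {g : M[X]} (hg : g ≠ 0) (s : M[X][X]) : s ≠ 0 →
    (∀ r, Irreducible r → r ∣ s → r ∣ B ∨ r ∣ mem A B g) →
    ∃ f : κ → ℕ, Associated (io A B ω s) (∏ j, io A B ω (π j) ^ f j) := by
  classical
  induction s using WfDvdMonoid.induction_on_irreducible with
  | zero => intro h0; exact (h0 rfl).elim
  | unit u hu =>
    intro _ _
    refine ⟨0, ?_⟩
    simp only [Pi.zero_apply, pow_zero, Finset.prod_const_one]
    exact associated_one_iff_isUnit.2 (hu.map _)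
  | mul a i ha hi ih =>
    intro _ hr
    obtain ⟨f, hf⟩ := ih ha fun r h1 h2 => hr r h1 (h2.mul_left _)
    have aux : i ∣ B * mem A B P →
        ∃ f' : κ → ℕ, Associated (io A B ω i) (∏ j, io A B ω (π j) ^ f' j) := by
      intro h1
      obtain ⟨j, hj⟩ := d.F.all i hi h1
      refine ⟨Pi.single j 1, ?_⟩
      have h2 : ∏ k, io A B ω (π k) ^ (Pi.single j 1 : κ → ℕ) k = io A B ω (π j) := by
        rw [Finset.prod_eq_single j]
        · rw [Pi.single_eq_same, pow_one]
        · intro k _ hk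
          rw [Pi.single_eq_of_ne hk, pow_zero]
        · intro h'
          exact (h' (Finset.mem_univ j)).elim
      rw [h2]
      exact hj.map (io A B ω)
    have key : ∃ f' : κ → ℕ, Associated (io A B ω i) (∏ j, io A B ω (π j) ^ f' j) := by
      rcases hr i hi (dvd_mul_right _ _) with h1 | h1
      · exact aux (h1.mul_right _)
      · obtain ⟨Ψ, h2, h3, h4⟩ := d.pm.exists_factor hi g hg h1
        by_cases hP : Ψ ∣ P
        · exact aux ((h4.trans (d.pm.mem_dvd d.P0 hP)).mul_left _)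
        · have h5 := hi.associated_of_dvd (d.hmem Ψ h2 hP) h4
          exact ⟨fun j => Ψ.natDegree * μ j,
            ((h5.map (io A B ω)).trans (h.io_mem h2.ne_zero)).trans (io_pow_rep hμ _)⟩
    obtain ⟨f', hf'⟩ := key
    refine ⟨f' + f, ?_⟩
    rw [map_mul]
    have e : ∏ j, io A B ω (π j) ^ (f' + f) j =
        (∏ j, io A B ω (π j) ^ f' j) * ∏ j, io A B ω (π j) ^ f j := by
      rw [← Finset.prod_mul_distrib]
      exact Finset.prod_congr rfl fun j _ => pow_add _ _ _
    rw [e]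
    exact hf'.mul_mul hf

theorem Dt.rel (d : Dt n A B P π Φ j0) (h : PS A B ω) [IsDomain (AdjoinRoot (FF A B ω))]
    (a : AdjoinRoot (FF A B ω)) (N : ℕ) (ha : a ∣ io A B ω B ^ N) : ∃ e f : κ → ℕ,
    Associated (a * ∏ j, io A B ω (π j) ^ e j) (∏ j, io A B ω (π j) ^ f j) := by
  obtain ⟨b, hb⟩ := ha
  obtain ⟨μ, hμ, -⟩ := d.mu
  obtain ⟨q, k, s, hq, hs⟩ := exists_io h.ge a
  obtain ⟨q', k', s', hq', hs'⟩ := exists_io h.ge b
  have hβ0 := h.beta_ne
  have hq0 : q ≠ 0 := by
    rintro rfl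
    exact hq (map_zero _)
  have hq0' : q' ≠ 0 := by
    rintro rfl
    exact hq' (map_zero _)
  have hqq : q * q' ≠ 0 := mul_ne_zero hq0 hq0'
  have h1 : s * s' * B ^ (q * q').natDegree = mem A B (q * q') * B ^ (k + k' + N) := by
    apply h.inj
    unfold mem
    rw [map_mul, map_mul, map_mul, map_pow, map_pow, io_hm le_rfl, ← hs, ← hs', map_mul (aeval ω),
      map_mul (ka A B ω), pow_add (io A B ω B) (k + k'), pow_add (io A B ω B) k, hb]
    ring
  have h2 : s ∣ mem A B (q * q') * B ^ (k + k' + N) := by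
    rw [← h1, mul_assoc]
    exact dvd_mul_right _ _
  have hs0 : s ≠ 0 := by
    rintro rfl
    exact mul_ne_zero (d.pm.mem_ne hqq) (pow_ne_zero _ h.B0) (zero_dvd_iff.1 h2)
  obtain ⟨f, hf⟩ := d.rep h hμ hqq s hs0 (fun r hr hrs => by
    rcases hr.prime.dvd_or_dvd (hrs.trans h2) with h3 | h3
    · exact Or.inr h3
    · exact Or.inl (hr.prime.dvd_of_dvd_pow h3))
  refine ⟨fun j => k * μ j, f, ?_⟩
  refine ((Associated.refl a).mul_mul (io_pow_rep (A := A) (B := B) (ω := ω) hμ k).symm).trans ?_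
  refine Associated.trans ?_ hf
  have h3 : io A B ω s = ka A B ω (aeval ω q) * (a * io A B ω B ^ k) := by
    rw [← hs]
    ring
  rw [h3]
  exact (associated_unit_mul_left _ _ (unit_ka q hq)).symm

theorem exists_coprime (h : PS A B ω) {c : K} (hc0 : c ≠ 0) : ∃ p q : M[X], p ≠ 0 ∧ q ≠ 0 ∧
    c * aeval ω q = aeval ω p ∧ IsCoprime p q := by
  classical
  obtain ⟨p, q, hq, hpq⟩ := h.ge c
  have hq0 : q ≠ 0 := by
    rintro rfl
    exact hq (map_zero _)
  let _ : GCDMonoid M[X] := EuclideanDomain.gcdMonoid _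
  have hcop := isCoprime_div_gcd_div_gcd (p := p) hq0
  set g := GCDMonoid.gcd p q with hg
  have hg0 : g ≠ 0 := by
    intro h0
    exact hq0 (zero_dvd_iff.1 (h0 ▸ GCDMonoid.gcd_dvd_right p q))
  have h1 : g * (p / g) = p := EuclideanDomain.mul_div_cancel' hg0 (GCDMonoid.gcd_dvd_left p q)
  have h2 : g * (q / g) = q := EuclideanDomain.mul_div_cancel' hg0 (GCDMonoid.gcd_dvd_right p q)
  have hgω : aeval ω g ≠ 0 := h.aeval_ne hg0
  have h3 : c * aeval ω (q / g) = aeval ω (p / g) := by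
    apply mul_left_cancel₀ hgω
    rw [← map_mul, h1, ← hpq, mul_left_comm, ← map_mul, h2]
  have hq1 : q / g ≠ 0 := by
    intro h0
    rw [h0, mul_zero] at h2
    exact hq0 h2.symm
  refine ⟨p / g, q / g, ?_, hq1, h3, hcop⟩
  intro h0
  rw [h0, map_zero] at h3
  exact mul_ne_zero hc0 (h.aeval_ne hq1) h3

theorem Dt.indD (d : Dt n A B P π Φ j0) (h : PS A B ω)
    (hu : ∀ u : AdjoinRoot (FF A B ω), IsUnit u → ∃ c : K, c ≠ 0 ∧ u = ka A B ω c)
    (e f : κ → ℕ) (hz : ∀ t, e (j0 t) = 0 ∧ f (j0 t) = 0) (hef : ∀ j, e j = 0 ∨ f j = 0)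
    (has : Associated (∏ j, io A B ω (π j) ^ e j) (∏ j, io A B ω (π j) ^ f j)) :
    e = 0 ∧ f = 0 := by
  rw [prod_io, prod_io] at has
  obtain ⟨u, hu'⟩ := has
  obtain ⟨c, hc0, hc⟩ := hu u u.isUnit
  obtain ⟨p, q, hp0, hq0, hpq, hcop⟩ := exists_coprime h hc0
  have key : ∀ N, p.natDegree ≤ N → q.natDegree ≤ N →
      (∏ j, π j ^ e j) * hm (-A) B N (sg p) = (∏ j, π j ^ f j) * hm (-A) B N (sg q) := by
    intro N h1 h2
    apply h.inj
    rw [map_mul, map_mul, io_hm h1, io_hm h2, ← hu', hc, ← hpq, map_mul (ka A B ω)]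
    ring
  have hup : IsUnit p := d.ind (fun t => (hz t).2) hp0 hcop (le_max_left _ _) (le_max_right _ _)
    (key _ (le_max_left _ _) (le_max_right _ _))
  have huq : IsUnit q := d.ind (fun t => (hz t).1) hq0 hcop.symm (le_max_right _ _)
    (le_max_left _ _) (key _ (le_max_left _ _) (le_max_right _ _)).symm
  have hdp : p.natDegree = 0 := natDegree_eq_zero_of_isUnit hup
  have hdq : q.natDegree = 0 := natDegree_eq_zero_of_isUnit huq
  have h1 := key 0 hdp.le hdq.le
  have h2 : hm (-A) B 0 (sg p) = mem A B p := by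
    unfold mem
    rw [hdp]
  have h3 : hm (-A) B 0 (sg q) = mem A B q := by
    unfold mem
    rw [hdq]
  rw [h2, h3] at h1
  have h4 : Associated (∏ j, π j ^ e j) (∏ j, π j ^ f j) :=
    (associated_mul_unit_left _ _ (mem_unit hup)).symm.trans
      ((Associated.of_eq h1).trans (associated_mul_unit_left _ _ (mem_unit huq)))
  constructor
  · funext j
    by_contra hj
    exact fac_nd d.F ((hef j).resolve_left hj) ((fac_dv hj).trans h4.dvd)
  · funext j
    by_contra hj
    exact fac_nd d.F ((hef j).resolve_right hj) ((fac_dv hj).trans h4.symm.dvd)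

theorem Dt.redD (d : Dt n A B P π Φ j0) (h : PS A B ω) (t : τ) :
    ∃ (m : ℕ) (e f : κ → ℕ), 0 < m ∧ (∀ t', e (j0 t') = 0 ∧ f (j0 t') = 0) ∧
    Associated (io A B ω (π (j0 t)) ^ m * ∏ j, io A B ω (π j) ^ e j)
      (∏ j, io A B ω (π j) ^ f j) := by
  classical
  obtain ⟨a, ha, h1, h2⟩ := d.red t
  obtain ⟨μ, hμ, h3⟩ := d.mu
  refine ⟨a (j0 t), Function.update a (j0 t) 0, fun j => (Φ t).natDegree * μ j,
    Nat.pos_of_ne_zero h1, ?_, ?_⟩
  · intro t'
    constructor
    · by_cases ht : t' = t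
      · rw [ht, Function.update_self]
      · rw [Function.update_of_ne, h2 t' ht]
        intro h4
        apply h1
        rw [← h4]
        exact h2 t' ht
    · show (Φ t).natDegree * μ (j0 t') = 0
      rw [h3, mul_zero]
  · have h4 : io A B ω (π (j0 t)) ^ a (j0 t) *
        ∏ j, io A B ω (π j) ^ (Function.update a (j0 t) 0) j = ∏ j, io A B ω (π j) ^ a j := by
      rw [← Finset.mul_prod_erase Finset.univ (fun j => io A B ω (π j) ^ a j)
        (Finset.mem_univ (j0 t)), ← Finset.mul_prod_erase Finset.univ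
        (fun j => io A B ω (π j) ^ (Function.update a (j0 t) 0) j) (Finset.mem_univ (j0 t))]
      rw [Function.update_self, pow_zero, one_mul]
      congr 1
      refine Finset.prod_congr rfl fun j hj => ?_
      rw [Function.update_of_ne (Finset.ne_of_mem_erase hj)]
    rw [h4, prod_io]
    refine ((ha.map (io A B ω)).symm.trans (h.io_mem (d.phi t).ne_zero)).trans ?_
    exact io_pow_rep hμ _

theorem Dt.gens (d : Dt n A B P π Φ j0) (h : PS A B ω) [Fintype τ]
    [IsDedekindDomain (AdjoinRoot (FF A B ω))]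
    (hu : ∀ u : AdjoinRoot (FF A B ω), IsUnit u → ∃ c : K, c ≠ 0 ∧ u = ka A B ω c)
    [Fintype {Q : Ideal (AdjoinRoot (FF A B ω)) // Q.IsPrime ∧ io A B ω B ∈ Q}] :
    GensQ (fun Q : {Q : Ideal (AdjoinRoot (FF A B ω)) // Q.IsPrime ∧ io A B ω B ∈ Q} => Q.1)
      (io A B ω B ^ (1 + P.natDegree)) (fun j => io A B ω (π j)) j0 where
  ne := pow_ne_zero _ h.beta_ne
  prime Q := Q.2.1
  mem Q := Ideal.pow_mem_of_mem _ Q.2.2 _ (by omega)
  inj := Subtype.val_injective
  all Q hQ hβ := ⟨⟨Q, hQ, hQ.mem_of_pow_mem _ hβ⟩, rfl⟩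
  gen Q hQ hQ0 hβ := by
    obtain ⟨x, I, k, h1, h2, h3⟩ := h.gen Q hQ hQ0 (fun h0 =>
      hβ (Ideal.pow_mem_of_mem _ h0 _ (by omega)))
    refine ⟨x, I, k, h1, h2, h3.trans ?_⟩
    apply pow_dvd_pow_of_dvd
    rw [← Ideal.span_singleton_pow]
    exact dvd_pow_self _ (by omega)
  dvd j := by
    have h1 : io A B ω (π j) ∣ io A B ω (B * mem A B P) := _root_.map_dvd _ (d.F.dvd j)
    rw [map_mul] at h1
    have h2 : Associated (io A B ω B * io A B ω (mem A B P)) (io A B ω B ^ (1 + P.natDegree)) := by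
      rw [pow_add, pow_one]
      exact (Associated.refl _).mul_mul (h.io_mem d.P0)
    exact h1.trans h2.dvd
  j0inj := d.j0inj
  ind e f hz hef has := d.indD h hu e f hz hef has
  red t := d.redD h t
  rel a N ha := d.rel h a ((1 + P.natDegree) * N) (by rwa [pow_mul])

end

/-- **The rank of the class group of the generic curve of a pencil of plane curves.** -/
theorem t_Rank (hD : StmDeg) (hG : StmGenQ) : StmRank := by
  intro M K _ _ _ _ _ n A B ω P _ h hP hmem
  classical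
  have hs : PS A B ω := ps_of h
  have pm : PM n A B := ⟨h.hA.monic, h.hA.deg, h.hn, h.hB.deg, h.hB0, h.irrA⟩
  have hne : B * mem A B P ≠ 0 := mul_ne_zero pm.B0 (pm.mem_ne hP)
  have hκ : Finite (Cm (B * mem A B P)) := cm_finite hne
  have hτ : Finite (Cm (C P : M[X][X])) := cm_finite (C_ne_zero.2 hP)
  let _ : Fintype (Cm (B * mem A B P)) := Fintype.ofFinite _
  let _ : Fintype (Cm (C P : M[X][X])) := Fintype.ofFinite _
  have F := fac_out (B * mem A B P)
  choose Φ h1 h2 h3 using exists_phi hP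
  have h4 : ∀ t : Cm (C P : M[X][X]), ∃ j : Cm (B * mem A B P),
      Quot.out j.1 ∣ mem A B (Φ t) := by
    intro t
    have hnu : ¬ IsUnit (mem A B (Φ t)) := by
      intro hu
      have h5 := natDegree_eq_zero_of_isUnit hu
      rw [pm.mem_deg (h1 t).ne_zero, Nat.mul_eq_zero] at h5
      rcases h5 with h5 | h5
      · exact pm.hn.ne' h5
      · exact (h1 t).natDegree_pos.ne' h5
    obtain ⟨r, hr, hr'⟩ := WfDvdMonoid.exists_irreducible_factor hnu (pm.mem_ne (h1 t).ne_zero)
    obtain ⟨j, hj⟩ := F.all r hr ((hr'.trans (pm.mem_dvd hP (h2 t))).mul_left _)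
    exact ⟨j, hj.symm.dvd.trans hr'⟩
  choose j0 h5 using h4
  have d : Dt n A B P (fun j : Cm (B * mem A B P) => Quot.out j.1) Φ j0 :=
    { pm := pm
      P0 := hP
      hmem := hmem
      F := F
      phi := h1
      phid := h2
      ass := by
        intro t t' htt
        apply Subtype.ext
        rw [← h3 t, ← h3 t', Associates.mk_eq_mk_iff_associated]
        exact htt.map (C : M[X] →+* M[X][X])
      all := by
        intro Ψ hΨ hΨP
        have h6 : Irreducible (C Ψ : M[X][X]) := (Polynomial.prime_C_iff.2 hΨ.prime).irreducible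
        refine ⟨⟨Associates.mk (C Ψ), Associates.irreducible_mk.2 h6,
          Associates.mk_dvd_mk.2 (_root_.map_dvd C hΨP)⟩, ?_⟩
        have h7 := h3 ⟨Associates.mk (C Ψ), Associates.irreducible_mk.2 h6,
          Associates.mk_dvd_mk.2 (_root_.map_dvd C hΨP)⟩
        rw [Associates.mk_eq_mk_iff_associated] at h7
        refine hΨ.associated_of_dvd (h1 _) ?_
        have h8 := (C_dvd_iff_dvd_coeff _ _).1 h7.symm.dvd 0
        rwa [coeff_C_zero] at h8
      j0d := h5 }
  have hfin : Finite (BPt A B) := bpt_finite pm.irrA pm.ndvd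
  have hfin' : Finite {Q : Ideal (AdjoinRoot (FF A B ω)) // Q.IsPrime ∧ io A B ω B ∈ Q} :=
    Finite.of_equiv _ hs.eqv.symm
  let _ : Fintype {Q : Ideal (AdjoinRoot (FF A B ω)) // Q.IsPrime ∧ io A B ω B ∈ Q} :=
    Fintype.ofFinite _
  have hu : ∀ u : AdjoinRoot (FF A B ω), IsUnit u → ∃ c : K, c ≠ 0 ∧ u = ka A B ω c :=
    (hD K n (FF A B ω) h.hn (isPl_FF h) h.irrL).2
  obtain ⟨h6, h7⟩ := hG _ _ _ _ _ _ _ _ (d.gens hs hu)
  have h8 : Nat.card (BPt A B) = Fintype.card {Q : Ideal (AdjoinRoot (FF A B ω)) //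
      Q.IsPrime ∧ io A B ω B ∈ Q} := by
    rw [← Nat.card_eq_fintype_card, Nat.card_congr hs.eqv]
  have h9 : Fintype.card (Cm (C P : M[X][X])) ≤ Fintype.card (Cm (B * mem A B P)) :=
    Fintype.card_le_of_injective _ d.j0inj
  refine ⟨_, ?_, h7⟩
  rw [h8, Nat.card_eq_fintype_card (α := Cm (B * mem A B P)),
    Nat.card_eq_fintype_card (α := Cm (C P : M[X][X]))]
  omega

end Pool.Agent.K3h17.PP
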