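import Pool.Agent.K3h27.PP.Stm

set_option autoImplicit false

/-!
Brick STEP4 for `MP_f77bf6_co`: a pendant `K_4`.
-/

open Finset

namespace Pool.Agent.K3h17.PP

open Pool.Agent.K3h27.PP

/-- The types allowed next to each other. -/
def ok (s t : Fin 3) : Bool := !((s == 0 && t == 2) || (s == 2 && t == 0))

/-- The constraints on the types. -/
def cst (t1 t2 t3 t4 t5 t6 : Fin 3) : Bool :=
  ok t1 t2 && ok t2 t3 && ok t3 t4 && ok t4 t5 && ok t5 t6 &&
  !(t1 == 1 && t2 == 1) && !(t1 == 1 && t3 == 1) && !(t1 == 1 && t4 == 1) &&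
  !(t1 == 1 && t5 == 1) && !(t1 == 1 && t6 == 1) && !(t2 == 1 && t3 == 1) &&
  !(t2 == 1 && t4 == 1) && !(t2 == 1 && t5 == 1) && !(t2 == 1 && t6 == 1) &&
  !(t3 == 1 && t4 == 1) && !(t3 == 1 && t5 == 1) && !(t3 == 1 && t6 == 1) &&
  !(t4 == 1 && t5 == 1) && !(t4 == 1 && t6 == 1) && !(t5 == 1 && t6 == 1) &&
  !(t1 == 0 && t2 == 0 && t3 == 0 && t4 == 0) && !(t2 == 0 && t3 == 0 && t4 == 0 && t5 == 0) &&
  !(t3 == 0 && t4 == 0 && t5 == 0 && t6 == 0) && !(t1 == 0 && t2 == 0 && t4 == 0 && t5 == 0) &&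
  !(t1 == 0 && t2 == 0 && t3 == 0 && t5 == 0) &&
  (t1 == 0 || t2 == 0 || t3 == 0 || t4 == 0 || t5 == 0 || t6 == 0)

/-- The conclusion for a path in the forward direction. -/
def fwd (t1 t2 t3 t4 t5 t6 : Fin 3) : Bool :=
  (t1 == 0 && t2 == 0 && t3 == 1 && t4 == 2 && t5 == 2 && t6 == 2) ||
  (t1 == 0 && t2 == 0 && t3 == 0 && t4 == 1 && t5 == 2 && t6 == 2) ||
  (t1 == 0 && t2 == 1 && t3 == 2 && t4 == 2 && t5 == 2 && t6 == 2)

/-- The combinatorics of the types of the vertices: `0` for `a, b, c`, `1` for `d`, `2` otherwise. -/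
theorem types : ∀ t1 t2 t3 t4 t5 t6 : Fin 3, cst t1 t2 t3 t4 t5 t6 = true →
    fwd t1 t2 t3 t4 t5 t6 = true ∨ fwd t6 t5 t4 t3 t2 t1 = true := by
  decide +kernel

variable {V : Type}

open Classical in
/-- The type of a vertex. -/
noncomputable def ty (a b c d x : V) : Fin 3 :=
  if x = a ∨ x = b ∨ x = c then 0 else if x = d then 1 else 2

theorem ty0 {a b c d x : V} : ty a b c d x = 0 ↔ (x = a ∨ x = b ∨ x = c) := by
  unfold ty
  split_ifs with h1 h2 <;> simp [h1]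

theorem ty1 {a b c d x : V} (hd : d ≠ a ∧ d ≠ b ∧ d ≠ c) : ty a b c d x = 1 ↔ x = d := by
  unfold ty
  split_ifs with h1 h2
  · constructor
    · intro h; exact absurd h (by decide)
    · rintro rfl
      rcases h1 with h | h | h
      · exact absurd h hd.1
      · exact absurd h hd.2.1
      · exact absurd h hd.2.2
  · simp [h2]
  · simp [h2]

theorem ty2 {a b c d x : V} : ty a b c d x = 2 ↔ (x ≠ a ∧ x ≠ b ∧ x ≠ c ∧ x ≠ d) := by
  unfold ty
  split_ifs with h1 h2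
  · simp only [show ((0 : Fin 3) = 2) = False by simp, false_iff]
    rintro ⟨g1, g2, g3, -⟩
    rcases h1 with h | h | h
    · exact g1 h
    · exact g2 h
    · exact g3 h
  · subst h2
    simp
  · push Not at h1
    simp [h1, h2]

theorem pig {a b c x y z w : V} (hx : x = a ∨ x = b ∨ x = c) (hy : y = a ∨ y = b ∨ y = c)
    (hz : z = a ∨ z = b ∨ z = c) (hw : w = a ∨ w = b ∨ w = c) (h1 : x ≠ y) (h2 : x ≠ z)
    (h3 : x ≠ w) (h4 : y ≠ z) (h5 : y ≠ w) (h6 : z ≠ w) : False := by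
  rcases hx with rfl | rfl | rfl <;> rcases hy with rfl | rfl | rfl <;>
    rcases hz with rfl | rfl | rfl <;> rcases hw with rfl | rfl | rfl <;>
    first | exact h1 rfl | exact h2 rfl | exact h3 rfl | exact h4 rfl | exact h5 rfl | exact h6 rfl

theorem mem_P6 {G : SimpleGraph V} {W : Finset V} {x1 x2 x3 x4 x5 x6 : V} :
    (x1, x2, x3, x4, x5, x6) ∈ P6 G W ↔
      (x1 ∈ W ∧ x2 ∈ W ∧ x3 ∈ W ∧ x4 ∈ W ∧ x5 ∈ W ∧ x6 ∈ W) ∧
      [x1, x2, x3, x4, x5, x6].Nodup ∧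
      G.Adj x1 x2 ∧ G.Adj x2 x3 ∧ G.Adj x3 x4 ∧ G.Adj x4 x5 ∧ G.Adj x5 x6 := by
  unfold P6
  simp only [mem_filter, mem_product]

theorem mem_E2 {G : SimpleGraph V} {W : Finset V} {x y : V} :
    (x, y) ∈ E2 G W ↔ (x ∈ W ∧ y ∈ W) ∧ G.Adj x y := by
  unfold E2
  simp only [mem_filter, mem_product]

theorem nd6 {x1 x2 x3 x4 x5 x6 : V} : [x1, x2, x3, x4, x5, x6].Nodup ↔
    (x1 ≠ x2 ∧ x1 ≠ x3 ∧ x1 ≠ x4 ∧ x1 ≠ x5 ∧ x1 ≠ x6) ∧
    (x2 ≠ x3 ∧ x2 ≠ x4 ∧ x2 ≠ x5 ∧ x2 ≠ x6) ∧ (x3 ≠ x4 ∧ x3 ≠ x5 ∧ x3 ≠ x6) ∧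
    (x4 ≠ x5 ∧ x4 ≠ x6) ∧ x5 ≠ x6 := by
  simp only [List.nodup_cons, List.mem_cons, List.not_mem_nil, or_false, not_or,
    not_false_eq_true, List.nodup_nil, and_true, ne_eq]

theorem ok_of {G : SimpleGraph V} {W : Finset V} {a b c d x y : V}
    (hd : d ≠ a ∧ d ≠ b ∧ d ≠ c)
    (hN : ∀ y ∈ W, (G.Adj a y ∨ G.Adj b y ∨ G.Adj c y) → y = a ∨ y = b ∨ y = c ∨ y = d)
    (hx : x ∈ W) (hy : y ∈ W) (h : G.Adj x y) : ok (ty a b c d x) (ty a b c d y) = true := by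
  have key : ∀ x y : V, y ∈ W → G.Adj x y → ty a b c d x = 0 → ty a b c d y ≠ 2 := by
    intro x y hy h hx h2
    rw [ty0] at hx
    rw [ty2] at h2
    have h3 : G.Adj a y ∨ G.Adj b y ∨ G.Adj c y := by
      rcases hx with rfl | rfl | rfl
      · exact Or.inl h
      · exact Or.inr (Or.inl h)
      · exact Or.inr (Or.inr h)
    rcases hN y hy h3 with h4 | h4 | h4 | h4
    · exact h2.1 h4
    · exact h2.2.1 h4
    · exact h2.2.2.1 h4
    · exact h2.2.2.2 h4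
  have h1 := key x y hy h
  have h2 := key y x hx h.symm
  unfold ok
  generalize ty a b c d x = s at h1 h2
  generalize ty a b c d y = t at h1 h2
  revert s t
  decide

theorem cst_of {G : SimpleGraph V} {W : Finset V} {a b c d x1 x2 x3 x4 x5 x6 : V}
    (hd : d ≠ a ∧ d ≠ b ∧ d ≠ c)
    (hN : ∀ y ∈ W, (G.Adj a y ∨ G.Adj b y ∨ G.Adj c y) → y = a ∨ y = b ∨ y = c ∨ y = d)
    (hp : (x1, x2, x3, x4, x5, x6) ∈ P6 G W)
    (ha : x1 = a ∨ x2 = a ∨ x3 = a ∨ x4 = a ∨ x5 = a ∨ x6 = a) :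
    cst (ty a b c d x1) (ty a b c d x2) (ty a b c d x3) (ty a b c d x4) (ty a b c d x5)
      (ty a b c d x6) = true := by
  rw [mem_P6, nd6] at hp
  obtain ⟨⟨w1, w2, w3, w4, w5, w6⟩, ⟨⟨n12, n13, n14, n15, n16⟩, ⟨n23, n24, n25, n26⟩,
    ⟨n34, n35, n36⟩, ⟨n45, n46⟩, n56⟩, e1, e2, e3, e4, e5⟩ := hp
  have one : ∀ x y : V, x ≠ y → (ty a b c d x == 1 && ty a b c d y == 1) = false := by
    intro x y hxy
    by_contra hcon
    rw [Bool.not_eq_false, Bool.and_eq_true, beq_iff_eq, beq_iff_eq, ty1 hd, ty1 hd] at hcon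
    exact hxy (hcon.1.trans hcon.2.symm)
  have four : ∀ x y z w : V, x ≠ y → x ≠ z → x ≠ w → y ≠ z → y ≠ w → z ≠ w →
      (ty a b c d x == 0 && ty a b c d y == 0 && ty a b c d z == 0 && ty a b c d w == 0) =
        false := by
    intro x y z w h1 h2 h3 h4 h5 h6
    by_contra hcon
    simp only [Bool.not_eq_false, Bool.and_eq_true, beq_iff_eq, ty0] at hcon
    exact pig hcon.1.1.1 hcon.1.1.2 hcon.1.2 hcon.2 h1 h2 h3 h4 h5 h6
  have hz : (ty a b c d x1 == 0 || ty a b c d x2 == 0 || ty a b c d x3 == 0 ||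
      ty a b c d x4 == 0 || ty a b c d x5 == 0 || ty a b c d x6 == 0) = true := by
    simp only [Bool.or_eq_true, beq_iff_eq, ty0]
    tauto
  unfold cst
  rw [ok_of hd hN w1 w2 e1, ok_of hd hN w2 w3 e2, ok_of hd hN w3 w4 e3, ok_of hd hN w4 w5 e4,
    ok_of hd hN w5 w6 e5, one _ _ n12, one _ _ n13, one _ _ n14, one _ _ n15, one _ _ n16,
    one _ _ n23, one _ _ n24, one _ _ n25, one _ _ n26, one _ _ n34, one _ _ n35, one _ _ n36,
    one _ _ n45, one _ _ n46, one _ _ n56, four _ _ _ _ n12 n13 n14 n23 n24 n34,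
    four _ _ _ _ n23 n24 n25 n34 n35 n45, four _ _ _ _ n34 n35 n36 n45 n46 n56,
    four _ _ _ _ n12 n14 n15 n24 n25 n45, four _ _ _ _ n12 n13 n15 n23 n25 n35, hz]
  rfl

/-- Reversing a tuple. -/
def rv (p : V × V × V × V × V × V) : V × V × V × V × V × V :=
  (p.2.2.2.2.2, p.2.2.2.2.1, p.2.2.2.1, p.2.2.1, p.2.1, p.1)

theorem rv_mem {G : SimpleGraph V} {W : Finset V} {x1 x2 x3 x4 x5 x6 : V}
    (h : (x1, x2, x3, x4, x5, x6) ∈ P6 G W) : (x6, x5, x4, x3, x2, x1) ∈ P6 G W := by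
  rw [mem_P6, nd6] at h ⊢
  obtain ⟨⟨w1, w2, w3, w4, w5, w6⟩, ⟨⟨n12, n13, n14, n15, n16⟩, ⟨n23, n24, n25, n26⟩,
    ⟨n34, n35, n36⟩, ⟨n45, n46⟩, n56⟩, e1, e2, e3, e4, e5⟩ := h
  exact ⟨⟨w6, w5, w4, w3, w2, w1⟩, ⟨⟨n56.symm, n46.symm, n36.symm, n26.symm, n16.symm⟩,
    ⟨n45.symm, n35.symm, n25.symm, n15.symm⟩, ⟨n34.symm, n24.symm, n14.symm⟩,
    ⟨n23.symm, n13.symm⟩, n12.symm⟩, e5.symm, e4.symm, e3.symm, e2.symm, e1.symm⟩

theorem t_STEP4 : S_EDGE → S_L3 → S_STEP4 := by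
  intro hE hL V _ G hG W a b c d ha hb hc hdW hnd hab hac had hbc hbd hcd hN hW
  classical
  have hn4 : a ≠ b ∧ a ≠ c ∧ a ≠ d ∧ b ≠ c ∧ b ≠ d ∧ c ≠ d := by
    simp only [List.nodup_cons, List.mem_cons, List.not_mem_nil, or_false, not_or,
      not_false_eq_true, List.nodup_nil, and_true] at hnd
    tauto
  obtain ⟨nab, nac, nad, nbc, nbd, ncd⟩ := hn4
  have hd : d ≠ a ∧ d ≠ b ∧ d ≠ c := ⟨nad.symm, nbd.symm, ncd.symm⟩
  -- the rest
  obtain ⟨R, hR⟩ : ∃ R : Finset V, R = W \ {a, b, c, d} := ⟨_, rfl⟩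
  have hRc : R.card = W.card - 4 := by
    rw [hR, card_sdiff_of_subset]
    · congr 1
      rw [card_insert_of_notMem, card_insert_of_notMem, card_insert_of_notMem, card_singleton]
      · simpa using ncd
      · simp [nbc, nbd]
      · simp [nab, nac, nad]
    · intro x hx
      simp only [mem_insert, mem_singleton] at hx
      rcases hx with rfl | rfl | rfl | rfl <;> assumption
  have hRm : ∀ x, x ∈ W → ty a b c d x = 2 → x ∈ R := by
    intro x hx h2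
    rw [ty2] at h2
    rw [hR, mem_sdiff]
    refine ⟨hx, ?_⟩
    simp only [mem_insert, mem_singleton, not_or]
    exact h2
  -- the forward paths
  obtain ⟨S2, hS2⟩ : ∃ S2 : Finset (V × V), S2 = {(a, b), (b, a), (a, c), (c, a)} := ⟨_, rfl⟩
  have hS2c : S2.card ≤ 4 := by rw [hS2]; exact card_le_four
  obtain ⟨S3, hS3⟩ : ∃ S3 : Finset (V × V × V),
      S3 = ({(a, b, c), (a, c, b), (b, a, c), (b, c, a), (c, a, b), (c, b, a)} :
        Finset (V × V × V)) := ⟨_, rfl⟩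
  have hS3c : S3.card ≤ 6 := by rw [hS3]; exact card_le_six
  obtain ⟨T3, hT3⟩ : ∃ T3 : Finset (V × V × V), T3 = (R ×ˢ R ×ˢ R).filter fun q =>
      q.1 ≠ q.2.2 ∧ q.2.1 ≠ q.2.2 ∧ G.Adj d q.1 ∧ G.Adj q.1 q.2.1 ∧ G.Adj q.2.1 q.2.2 :=
    ⟨_, rfl⟩
  have hT3c : T3.card ≤ (W.card - 4) * (2 * (W.card - 6)) := by
    have h1 : T3 = R.biUnion fun z => T3.filter fun q => q.2.2 = z := by
      ext q
      simp only [mem_biUnion, mem_filter]
      constructor
      · intro hq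
        refine ⟨q.2.2, ?_, hq, rfl⟩
        rw [hT3, mem_filter, mem_product, mem_product] at hq
        exact hq.1.2.2
      · rintro ⟨z, -, hq, -⟩
        exact hq
    have h2 : ∀ z ∈ R, (T3.filter fun q => q.2.2 = z).card ≤ 2 * (W.card - 6) := by
      intro z hz
      have hzd : d ≠ z := by
        rintro rfl
        rw [hR] at hz
        simp at hz
      have h3 := hL V G hG.c6 (R.erase z) d z hzd
        (by rw [hR]; simp) (by simp) ((T3.filter fun q => q.2.2 = z).image fun q => (q.1, q.2.1))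
        (by
          intro q hq
          rw [mem_image] at hq
          obtain ⟨⟨r1, r2, r3⟩, hr, rfl⟩ := hq
          rw [mem_filter, hT3, mem_filter, mem_product, mem_product] at hr
          obtain ⟨⟨⟨g1, g2, g3⟩, g4, g5, g6, g7, g8⟩, rfl⟩ := hr
          exact ⟨mem_erase.2 ⟨g4, g1⟩, mem_erase.2 ⟨g5, g2⟩, g6, g7, g8⟩)
      rw [card_image_of_injOn, card_erase_of_mem hz, hRc] at h3
      · omega
      · intro q hq q' hq' hqq
        rw [mem_coe, mem_filter] at hq hq'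
        simp only [Prod.mk.injEq] at hqq
        exact Prod.ext hqq.1 (Prod.ext hqq.2 (hq.2.trans hq'.2.symm))
    rw [h1]
    refine card_biUnion_le.trans ((sum_le_sum h2).trans ?_)
    rw [sum_const, hRc, smul_eq_mul]
  have hE2c : (E2 G R).card ≤ 4 * (W.card - 4) := by
    rw [← hRc]
    exact hE V G hG R
  obtain ⟨F, hF⟩ : ∃ F : Finset (V × V × V × V × V × V), F =
      ((S2 ×ˢ T3).image fun q => (q.1.1, q.1.2, d, q.2.1, q.2.2.1, q.2.2.2)) ∪
      ((S3 ×ˢ E2 G R).image fun q => (q.1.1, q.1.2.1, q.1.2.2, d, q.2.1, q.2.2)) := ⟨_, rfl⟩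
  have hFc : F.card ≤ 8 * ((W.card - 3) * (W.card - 4)) := by
    rw [hF]
    refine (card_union_le _ _).trans ?_
    have g1 : ((S2 ×ˢ T3).image fun q => (q.1.1, q.1.2, d, q.2.1, q.2.2.1, q.2.2.2)).card ≤
        4 * ((W.card - 4) * (2 * (W.card - 6))) := by
      refine card_image_le.trans ?_
      rw [card_product]
      exact Nat.mul_le_mul hS2c hT3c
    have g2 : ((S3 ×ˢ E2 G R).image fun q => (q.1.1, q.1.2.1, q.1.2.2, d, q.2.1, q.2.2)).card ≤
        6 * (4 * (W.card - 4)) := by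
      refine card_image_le.trans ?_
      rw [card_product]
      exact Nat.mul_le_mul hS3c hE2c
    obtain ⟨k, hk⟩ : ∃ k, W.card = k + 9 := ⟨W.card - 9, by omega⟩
    rw [hk] at g1 g2 ⊢
    rw [show k + 9 - 4 = k + 5 by omega, show k + 9 - 6 = k + 3 by omega] at g1
    rw [show k + 9 - 4 = k + 5 by omega] at g2
    rw [show k + 9 - 4 = k + 5 by omega, show k + 9 - 3 = k + 6 by omega]
    nlinarith
  -- a forward path through `a` is in `F`
  have hfwd : ∀ x1 x2 x3 x4 x5 x6 : V, (x1, x2, x3, x4, x5, x6) ∈ P6 G W →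
      (x1 = a ∨ x2 = a ∨ x3 = a ∨ x4 = a ∨ x5 = a ∨ x6 = a) →
      fwd (ty a b c d x1) (ty a b c d x2) (ty a b c d x3) (ty a b c d x4) (ty a b c d x5)
        (ty a b c d x6) = true → (x1, x2, x3, x4, x5, x6) ∈ F := by
    intro x1 x2 x3 x4 x5 x6 hp hax hfw
    rw [mem_P6, nd6] at hp
    obtain ⟨⟨w1, w2, w3, w4, w5, w6⟩, ⟨⟨n12, n13, n14, n15, n16⟩, ⟨n23, n24, n25, n26⟩,
      ⟨n34, n35, n36⟩, ⟨n45, n46⟩, n56⟩, e1, e2, e3, e4, e5⟩ := hp
    simp only [fwd, Bool.or_eq_true, Bool.and_eq_true, beq_iff_eq] at hfw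
    have not2 : ∀ x, ty a b c d x = 2 → x ≠ a := fun x h => (ty2.1 h).1
    have not1 : ∀ x, ty a b c d x = 1 → x ≠ a := fun x h => by
      rw [ty1 hd] at h
      rw [h]
      exact nad.symm
    rw [hF, mem_union]
    rcases hfw with (⟨⟨⟨⟨⟨t1, t2⟩, t3⟩, t4⟩, t5⟩, t6⟩ | ⟨⟨⟨⟨⟨t1, t2⟩, t3⟩, t4⟩, t5⟩, t6⟩) |
      ⟨⟨⟨⟨⟨t1, t2⟩, t3⟩, t4⟩, t5⟩, t6⟩
    · left
      have hx3 : x3 = d := (ty1 hd).1 t3
      subst hx3
      have hax' : x1 = a ∨ x2 = a := by
        rcases hax with h | h | h | h | h | h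
        · exact Or.inl h
        · exact Or.inr h
        · exact absurd h (not1 _ t3)
        · exact absurd h (not2 _ t4)
        · exact absurd h (not2 _ t5)
        · exact absurd h (not2 _ t6)
      rw [ty0] at t1 t2
      rw [mem_image]
      refine ⟨((x1, x2), (x4, x5, x6)), ?_, rfl⟩
      rw [mem_product]
      constructor
      · rw [hS2]
        simp only [mem_insert, mem_singleton, Prod.mk.injEq]
        rcases hax' with rfl | rfl
        · rcases t2 with h | h | h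
          · exact absurd h.symm n12
          · exact Or.inl ⟨rfl, h⟩
          · exact Or.inr (Or.inr (Or.inl ⟨rfl, h⟩))
        · rcases t1 with h | h | h
          · exact absurd h n12
          · exact Or.inr (Or.inl ⟨h, rfl⟩)
          · exact Or.inr (Or.inr (Or.inr ⟨h, rfl⟩))
      · rw [hT3, mem_filter, mem_product, mem_product]
        exact ⟨⟨hRm _ w4 t4, hRm _ w5 t5, hRm _ w6 t6⟩, n46, n56, e3, e4, e5⟩
    · right
      have hx4 : x4 = d := (ty1 hd).1 t4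
      subst hx4
      rw [ty0] at t1 t2 t3
      rw [mem_image]
      refine ⟨((x1, x2, x3), (x5, x6)), ?_, rfl⟩
      rw [mem_product]
      constructor
      · rw [hS3]
        simp only [mem_insert, mem_singleton, Prod.mk.injEq]
        rcases t1 with t1 | t1 | t1 <;> rcases t2 with t2 | t2 | t2 <;>
          rcases t3 with t3 | t3 | t3 <;> first | exact absurd (t1.trans t2.symm) n12 |
            exact absurd (t1.trans t3.symm) n13 | exact absurd (t2.trans t3.symm) n23 |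
            simp [t1, t2, t3]
      · rw [mem_E2]
        exact ⟨⟨hRm _ w5 t5, hRm _ w6 t6⟩, e5⟩
    · exfalso
      have hx2 : x2 = d := (ty1 hd).1 t2
      have hx1 : x1 = a := by
        rcases hax with h | h | h | h | h | h
        · exact h
        · exact absurd h (not1 _ t2)
        · exact absurd h (not2 _ t3)
        · exact absurd h (not2 _ t4)
        · exact absurd h (not2 _ t5)
        · exact absurd h (not2 _ t6)
      subst hx2 hx1
      rw [ty2] at t3 t4 t5 t6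
      refine hG.p8 c b x1 x2 x3 x4 x5 x6 ?_ hbc.symm hab.symm e1 e2 e3 e4 e5
      simp only [List.nodup_cons, List.mem_cons, List.not_mem_nil, or_false, not_or,
        not_false_eq_true, List.nodup_nil, and_true]
      refine ⟨⟨nbc.symm, nac.symm, ncd, t3.2.2.1.symm, t4.2.2.1.symm, t5.2.2.1.symm,
        t6.2.2.1.symm⟩, ⟨nab.symm, nbd, t3.2.1.symm, t4.2.1.symm, t5.2.1.symm, t6.2.1.symm⟩,
        ⟨n12, n13, n14, n15, n16⟩, ⟨n23, n24, n25, n26⟩, ⟨n34, n35, n36⟩, ⟨n45, n46⟩, n56⟩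
  -- all paths through `a`
  have hsub : P6 G W ⊆ P6 G (W.erase a) ∪ (F ∪ F.image rv) := by
    rintro ⟨x1, x2, x3, x4, x5, x6⟩ hp
    rw [mem_union]
    by_cases hax : x1 = a ∨ x2 = a ∨ x3 = a ∨ x4 = a ∨ x5 = a ∨ x6 = a
    · right
      rw [mem_union]
      rcases types _ _ _ _ _ _ (cst_of hd hN hp hax) with h | h
      · exact Or.inl (hfwd _ _ _ _ _ _ hp hax h)
      · right
        rw [mem_image]
        refine ⟨(x6, x5, x4, x3, x2, x1), hfwd _ _ _ _ _ _ (rv_mem hp) ?_ h, rfl⟩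
        tauto
    · left
      push Not at hax
      rw [mem_P6] at hp ⊢
      obtain ⟨⟨w1, w2, w3, w4, w5, w6⟩, h⟩ := hp
      obtain ⟨a1, a2, a3, a4, a5, a6⟩ := hax
      exact ⟨⟨mem_erase.2 ⟨a1, w1⟩, mem_erase.2 ⟨a2, w2⟩, mem_erase.2 ⟨a3, w3⟩,
        mem_erase.2 ⟨a4, w4⟩, mem_erase.2 ⟨a5, w5⟩, mem_erase.2 ⟨a6, w6⟩⟩, h⟩
  have h1 := card_le_card hsub
  have h2 := card_union_le (P6 G (W.erase a)) (F ∪ F.image rv)
  have h3 := card_union_le F (F.image rv)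
  have h4 : (F.image rv).card ≤ F.card := card_image_le
  have h5 : 16 * (W.card - 3) * (W.card - 4) = 2 * (8 * ((W.card - 3) * (W.card - 4))) := by ring
  rw [h5]
  omega

end Pool.Agent.K3h17.PP
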